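import Mathlib
import Pool.Agent.TH591.Lie.Final

set_option autoImplicit false

/-!
# MP_5e7226_co: bodies with a large compact Lie group of symmetries

Let `K` be a convex body in a Euclidean space `E` of dimension `d ≥ 2` which is centrally symmetric
about its interior point `o`.

1. Rotations. Suppose that `K` is invariant, about `o`, under an orthogonal representation of
   `SO(n)` (`n ≥ 3`) on `E` without nonzero fixed vectors, whose matrix coefficients are polynomials
   of degree at most `k` in the entries of the rotation. Put `s = (n - 2) / (2048 k²)`. Then the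
   faces of `K` can be separated from `o` by at most `1 + 13 d log(4d+1) 2^d e^(-2s)` hyperplanes;
   this is less than `2^d` if `s ≥ 5` and `log d ≤ s`. So if `n - 2 ≥ 10240 k²` then the conjecture
   is true for all these bodies in all dimensions `d ≤ exp((n-2) / (2048 k²))`: the dimension may
   be exponential in `n`. Examples of such representations are the spaces of `m`-tuples of tensors
   of odd order `k` over `ℝ^n`, for all `m` up to `exp(n / (4096 k²))` if `n` is large compared
   with `k³ log n`, the spaces of harmonic polynomials of degree `k`, and the space of trace-free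
   matrices (under conjugation). Examples of bodies are the unit balls of all norms of `n × m`
   matrices with `‖U A‖ = ‖A‖` for all rotations `U`, of all norms of trace-free matrices (or of
   trace-free symmetric matrices) with `‖U A U⁻¹‖ = ‖A‖`, and of all tensor norms of odd order of
   the Euclidean space.
2. Compact Lie algebras. The same is true, with `s = γ / (4096 κ²)`, if `K` is invariant under the
   one-parameter groups generated by a compact semisimple Lie algebra of skew-symmetric operators
   of `E` without a common kernel. Here the Lie algebra is given by an orthonormal basis `X_i`,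
   with respect to some invariant inner product, such that the Killing form is at least `γ` (in
   absolute value), and `κ` is the largest norm of an operator `∑ a_i X_i` with `∑ a_i² = 1`.

The proof. We cover the polar body `P` by translates of its interior. (a) By Bernstein's inequality
for trigonometric polynomials, applied along the one-parameter groups, the functionals `y` with
`|⟪y, ·⟫| ≤ 1` on `P` satisfy `∑ ⟪y, X_i x⟫² ≤ κ²` on `P`. (b) Let `y = C z` with the Casimir
operator `C = -∑ X_i²`. By a maximum principle on `P` for the function `∑ ⟪z, X_i x⟫²`, whose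
Bochner formula contains the Killing form as a spectral gap, `∑ ⟪z, X_i x⟫² ≤ (4 κ / γ)²` on `P`.
(c) Integrating by parts along the flows in the exponential moments of `⟪y, ·⟫` on `P` we get that
`⟪y, ·⟫` is subgaussian on `P` with parameter `4 κ² / γ`: so all functionals are concentrated, and
(d) the covering theorem for bodies with thin supporting slabs applies. For (1) we prove that
`SO(n)` is generated by one-parameter groups, that the derived representation exists and is a
homomorphism of Lie algebras with `κ² ≤ 2 k²` (again by Bernstein's inequality: its weights have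
frequencies at most `k`), and that `γ = 4 (n - 2)` for the basis `E_ab - E_ba`.
-/

namespace Pool.Agent.Results.MP_5e7226_co.CompactLieSymmetries

open scoped InnerProductSpace
open Module

/-- `K` and `o` are separated by `H`: every face of `K` (the set of the points of `K` at which a
functional `⟪u, ·⟫`, `u ≠ 0`, is maximal on `K`) is strictly separated from `o` by one of the
hyperplanes `{x | ⟪h.1, x⟫ = h.2}` with `h ∈ H`. -/
def SeparatesFaces {E : Type*} [NormedAddCommGroup E] [InnerProductSpace ℝ E] (K : Set E) (o : E)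
    (H : Finset (E × ℝ)) : Prop :=
  (∀ h ∈ H, h.1 ≠ 0) ∧
    ∀ u x₀ : E, u ≠ 0 → x₀ ∈ K → (∀ y ∈ K, ⟪u, y⟫_ℝ ≤ ⟪u, x₀⟫_ℝ) →
      ∃ h ∈ H, ⟪h.1, o⟫_ℝ < h.2 ∧ ∀ x ∈ K, ⟪u, x⟫_ℝ = ⟪u, x₀⟫_ℝ → h.2 < ⟪h.1, x⟫_ℝ

/-- The bounds of the theorem, in terms of the parameter `s`: at most
`1 + 13 d log(4d+1) 2^d e^(-2s)` hyperplanes suffice, and less than `2^d` if `s ≥ 5` and
`log d ≤ s`. -/
def FewHyperplanes {E : Type*} [NormedAddCommGroup E] [InnerProductSpace ℝ E] (K : Set E) (o : E)
    (s : ℝ) : Prop :=
  ∃ H : Finset (E × ℝ), SeparatesFaces K o H ∧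
    (H.card : ℝ) ≤ 1 + 13 * finrank ℝ E * Real.log (4 * finrank ℝ E + 1) * 2 ^ finrank ℝ E
      * Real.exp (-(2 * s)) ∧
    (5 ≤ s → Real.log (finrank ℝ E) ≤ s → H.card < 2 ^ finrank ℝ E)

theorem result {E : Type*} [NormedAddCommGroup E] [InnerProductSpace ℝ E] [FiniteDimensional ℝ E]
    (hd : 2 ≤ finrank ℝ E)
    -- a convex body `K`, centrally symmetric about its interior point `o`
    (K : Set E) (hK : Convex ℝ K) (hKc : IsCompact K) (o : E) (ho : o ∈ interior K)
    (hKs : ∀ x ∈ K, o - (x - o) ∈ K) :
    -- 1. invariance under a representation of `SO(n)` of degree at most `k`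
    (∀ n k : ℕ, 3 ≤ n → 1 ≤ k →
      ∀ ρ : Matrix.specialOrthogonalGroup (Fin n) ℝ →* (E ≃ₗᵢ[ℝ] E),
      (∀ x y : E, ∃ P : MvPolynomial (Fin n × Fin n) ℝ, P.totalDegree ≤ k ∧
        ∀ g : Matrix.specialOrthogonalGroup (Fin n) ℝ, ⟪y, ρ g x⟫_ℝ
          = MvPolynomial.eval (fun p => (g : Matrix (Fin n) (Fin n) ℝ) p.1 p.2) P) →
      (∀ x : E, (∀ g, ρ g x = x) → x = 0) →
      (∀ g, ∀ x ∈ K, o + ρ g (x - o) ∈ K) →
      FewHyperplanes K o ((n - 2) / (2048 * k ^ 2))) ∧
    -- 2. invariance under a compact semisimple Lie algebra of operators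
    (∀ (ι : Type) [Fintype ι] (X : ι → E →L[ℝ] E) (c : ι → ι → ι → ℝ) (γ κ : ℝ), 0 < γ → 0 < κ →
      (∀ i x y, ⟪X i x, y⟫_ℝ = -⟪x, X i y⟫_ℝ) →
      (∀ i j x, X i (X j x) - X j (X i x) = ∑ k, c i j k • X k x) →
      (∀ i j k, c i j k = -c k j i) →
      (∀ v : ι → ℝ, γ * ∑ k, v k ^ 2 ≤ ∑ i, ∑ j, (∑ k, c i j k * v k) ^ 2) →
      (∀ x, (∀ i, X i x = 0) → x = 0) →
      (∀ a : ι → ℝ, ∑ i, a i ^ 2 ≤ 1 → ∀ x, ‖∑ i, a i • X i x‖ ≤ κ * ‖x‖) →
      (∀ a : ι → ℝ, ∀ x ∈ K, o + NormedSpace.exp (∑ i, a i • X i) (x - o) ∈ K) →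
      FewHyperplanes K o (γ / (4096 * κ ^ 2))) := by
  refine ⟨fun n k hn hk ρ hρ hfix hinv => ?_,
    fun ι _ X c γ κ hγ hκ hX hc hanti hkill hfix hn hinv => ?_⟩
  · exact TH591.Lie.sep_so K o hKc ho hd hKs hn k hk ρ hρ hfix hinv _ rfl
  · exact TH591.Lie.sep_lie K o hKc ho hd hKs X hX hinv c hc hanti γ hγ hkill hfix κ hκ hn _ rfl

end Pool.Agent.Results.MP_5e7226_co.CompactLieSymmetries
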