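import Mathlib
import Pool.Agent.TH438.Hull.Dual
import Pool.Agent.TH438.Hull.Equality
import Pool.Agent.TH438.Hull.Flats
import Pool.Agent.Results.MP_eba1ef_gt.AllConvexBodies

set_option autoImplicit false

/-!
# MP_5e7226_co: convex bodies whose polar body has its extreme points in a few flats

Let `K` be a convex body in `ℝ^d`, `o` an interior point and `P` the polar body of `K` with respect
to `o`. Let `A_1, ..., A_m` be compact convex subsets of `P`, of any dimensions, which contain all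
extreme points of `P` (so `P` is the convex hull of the `A_j`, and `K` is the intersection of the
polars of the `A_j`, each of which is a cylinder or a cone with a flat of apices if `A_j` is not
full-dimensional).

1. If `A_j` is covered by `N_j` translates of its relative interior (or is smooth in its affine hull
   and `N_j = dim A_j + 1`) for all `j`, then the faces of `K` can be separated from `o` by
   `N_1 + ... + N_m` hyperplanes.
2. If the extreme points of `P` lie in finitely many flats of dimensions at most two, with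
   `∑ 2 ^ dim ≤ 2 ^ d` (for `d = 3`: in two planes), then both parts of the conjecture are true for
   `(K, o)`: `2 ^ d` hyperplanes suffice, and `2 ^ d - 1` suffice unless `K` is a cross-body
   centred at `o`.
3. If they lie in flats of any dimensions with `∑ β(dim) ≤ 2 ^ d`, then `2 ^ d` hyperplanes suffice;
   here `β(k) = 2 ^ k` if `k ≤ 2` and `β(k) = 3 * 2 ^ k * k * log (2 k ^ 2 + 2 k + 1)` otherwise.
4. If the conjecture (both parts) is true in all dimensions `3, ..., d - 1`, and the extreme points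
   of `P` lie in flats of dimensions less than `d` with `∑ 2 ^ dim ≤ 2 ^ d` (for example in two
   hyperplanes), then both parts of the conjecture are true for `(K, o)`.

The proof. A set of directions illuminating `A_j` in its affine hull, slightly tilted towards an
interior point of `P`, illuminates all points of `A_j` in `P`. Every point of `P` is a convex
combination of points of the `A_j`, and a direction illuminating a point with a positive coefficient
illuminates the combination. In the equality case the pieces are parallelotopes, by the theorem of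
Levi in the plane (proved here), so `P` has at most `2 ^ d` vertices, no two of which can be
illuminated simultaneously; then even the fractional number is `2 ^ d`, and `K` is a cross-body.
-/

namespace Pool.Agent.Results.MP_5e7226_co.ExtremePointsInFlats

open Set Topology Module
open scoped InnerProductSpace
open Pool.Agent.H843R3.Had2 Pool.Agent.W677.Shadow
open Pool.Agent.TH438.Hull

/-- The Euclidean space `ℝ^d`. -/
abbrev Eu (d : ℕ) : Type := EuclideanSpace ℝ (Fin d)

/-- Some `N` hyperplanes `{x | ⟪w i, x⟫ = b i}` are such that every face of `K` (the set of the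
points `x` of `K` at which `⟪u, x⟫` is maximal, `u ≠ 0`) is strictly separated from `o` by one of
them. -/
def SeparatedBy {d : ℕ} (K : Set (Eu d)) (o : Eu d) (N : ℕ) : Prop :=
  ∃ (w : Fin N → Eu d) (b : Fin N → ℝ), ∀ u x₀ : Eu d, u ≠ 0 → x₀ ∈ K →
    (∀ y ∈ K, ⟪u, y⟫_ℝ ≤ ⟪u, x₀⟫_ℝ) →
      ∃ i, ⟪w i, o⟫_ℝ < b i ∧ ∀ x ∈ K, ⟪u, x⟫_ℝ = ⟪u, x₀⟫_ℝ → b i < ⟪w i, x⟫_ℝ

/-- `K` is a cross-body centred at `o`. -/
def IsCrossBody {d : ℕ} (K : Set (Eu d)) (o : Eu d) : Prop :=
  ∃ (v : Fin d → Eu d) (t : Fin d → ℝ), LinearIndependent ℝ v ∧ (∀ i, 0 < t i) ∧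
    K = convexHull ℝ (⋃ i, ({o + v i, o - t i • v i} : Set (Eu d)))

/-- Both parts of the conjecture for the pair `(K, o)`. -/
def BothParts {d : ℕ} (K : Set (Eu d)) (o : Eu d) : Prop :=
  SeparatedBy K o (2 ^ d) ∧ (¬ SeparatedBy K o (2 ^ d - 1) → IsCrossBody K o)

/-- Both parts of the conjecture in dimension `d`. -/
def ConjectureInDimension (d : ℕ) : Prop :=
  ∀ K : Set (Eu d), Convex ℝ K → IsCompact K → ∀ o ∈ interior K, BothParts K o

/-- The polar body of `K` with respect to `o`. -/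
def polar {d : ℕ} (K : Set (Eu d)) (o : Eu d) : Set (Eu d) := {v | ∀ y ∈ K, ⟪v, y - o⟫_ℝ ≤ 1}

/-- `A` is covered by at most `N` translates of its relative interior. -/
def RelCoveredBy {d : ℕ} (A : Set (Eu d)) (N : ℕ) : Prop :=
  ∃ T : Finset (Eu d), T.card ≤ N ∧ A ⊆ ⋃ t ∈ T, (fun x => t + x) '' intrinsicInterior ℝ A

/-- The dimension of (the affine hull of) `A`. -/
noncomputable def dim {d : ℕ} (A : Set (Eu d)) : ℕ := finrank ℝ (vectorSpan ℝ A)

/-- `A` is smooth in its affine hull: any two nonzero normal vectors at the same point, taken in the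
linear span of `A - A`, are positive multiples of each other. -/
def Smooth {d : ℕ} (A : Set (Eu d)) : Prop :=
  ∀ x ∈ A, ∀ u ∈ vectorSpan ℝ A, ∀ v ∈ vectorSpan ℝ A, u ≠ 0 → v ≠ 0 →
    (∀ y ∈ A, ⟪u, y⟫_ℝ ≤ ⟪u, x⟫_ℝ) → (∀ y ∈ A, ⟪v, y⟫_ℝ ≤ ⟪v, x⟫_ℝ) → ∃ c : ℝ, 0 < c ∧ v = c • u

/-- `A` is covered by `N` translates of its relative interior, or `A` is smooth and
`N = dim A + 1`. -/
def PieceNumber {d : ℕ} (A : Set (Eu d)) (N : ℕ) : Prop :=
  RelCoveredBy A N ∨ (Smooth A ∧ N = dim A + 1)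

/-- All extreme points of the polar body lie in the union of the sets `X j`. -/
def ExtremePointsIn {d m : ℕ} (K : Set (Eu d)) (o : Eu d) (X : Fin m → Set (Eu d)) : Prop :=
  (polar K o).extremePoints ℝ ⊆ ⋃ j, X j

/-- The bound by the sum of the numbers of the pieces. -/
def SumBound {d : ℕ} (K : Set (Eu d)) (o : Eu d) (m : ℕ) : Prop :=
  ∀ (A : Fin m → Set (Eu d)) (N : Fin m → ℕ),
    (∀ j, Convex ℝ (A j) ∧ IsCompact (A j) ∧ A j ⊆ polar K o) → ExtremePointsIn K o A →
    (∀ j, PieceNumber (A j) (N j)) → SeparatedBy K o (∑ j, N j)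

/-- The dimension of a flat. -/
noncomputable def flatDim {d : ℕ} (E : AffineSubspace ℝ (Eu d)) : ℕ := finrank ℝ E.direction

/-- The function `β`. -/
noncomputable def beta (k : ℕ) : ℝ :=
  if k ≤ 2 then 2 ^ k else 3 * 2 ^ k * (k * Real.log (2 * k ^ 2 + 2 * k + 1))

theorem beta_mono {a b : ℕ} (h : a ≤ b) : beta a ≤ beta b := by
  have hlog : ∀ k : ℕ, 3 ≤ k → 1 ≤ Real.log (2 * (k : ℝ) ^ 2 + 2 * k + 1) := by
    intro k hk
    have hk' : (3 : ℝ) ≤ k := by exact_mod_cast hk
    rw [Real.le_log_iff_exp_le (by positivity)]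
    have := Real.exp_one_lt_d9
    nlinarith
  unfold beta
  split_ifs with h1 h2 h2
  · exact pow_le_pow_right₀ (by norm_num) h
  · have h3 := hlog b (by omega)
    have hb : (3 : ℝ) ≤ b := by exact_mod_cast (show 3 ≤ b by omega)
    have h4 : (2 : ℝ) ^ a ≤ 2 ^ b := pow_le_pow_right₀ (by norm_num) h
    have h5 : (0 : ℝ) < 2 ^ b := by positivity
    have h6 : (1 : ℝ) ≤ b * Real.log (2 * (b : ℝ) ^ 2 + 2 * b + 1) := by nlinarith
    nlinarith
  · omega
  · have h3 := hlog a (by omega)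
    have ha : (a : ℝ) ≤ b := by exact_mod_cast h
    have h4 : (2 : ℝ) ^ a ≤ 2 ^ b := pow_le_pow_right₀ (by norm_num) h
    have h5 : Real.log (2 * (a : ℝ) ^ 2 + 2 * a + 1) ≤ Real.log (2 * (b : ℝ) ^ 2 + 2 * b + 1) := by
      apply Real.log_le_log (by positivity)
      gcongr
    gcongr

/-- from directions of the polar body to separating hyperplanes -/
theorem sep_of_dirs {d : ℕ} {K : Set (Eu d)} (hKc : IsCompact K) {o : Eu d}
    (ho : o ∈ interior K) {N : ℕ}
    (h : ∃ D : Finset (Eu d), D.card ≤ N ∧ ∀ x ∈ Pol K o, ∃ v ∈ D, Co (Pol K o) x v) :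
    SeparatedBy K o N := by
  classical
  obtain ⟨D, hD, h1⟩ := h
  obtain ⟨T, hT, h2⟩ := cover_of_dirs (Pol.convex K o) (Pol.isCompact ho) D h1
  obtain ⟨ε, hε, h3⟩ := sep_of_cov hKc ho T h2
  refine ⟨fun i => T.toList.getD i 0, fun i => ⟪T.toList.getD i 0, o⟫_ℝ + ε,
    fun u x₀ hu hx₀ hmax => ?_⟩
  obtain ⟨t, ht, _, h4⟩ := h3 u x₀ hu hx₀ hmax
  obtain ⟨i, hi, hit⟩ := List.getElem_of_mem (Finset.mem_toList.2 ht)
  have hiN : i < N := by
    rw [Finset.length_toList] at hi
    omega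
  refine ⟨⟨i, hiN⟩, by simp only; linarith, fun x hx hxu => ?_⟩
  have h5 : T.toList.getD i 0 = t := by
    rw [List.getD_eq_getElem _ _ hi, hit]
  simp only [h5]
  exact h4 x hx hxu

/-- the converse, for the polar body as a body -/
theorem dirs_of_sep {k : ℕ} {L : Set (Eu k)} (hL : Convex ℝ L) (hLc : IsCompact L) {c : Eu k}
    (hc : c ∈ interior L) {N : ℕ} (hN : 0 < N) (h : SeparatedBy (Pol L c) 0 N) :
    ∃ W : Finset (Eu k), W.card ≤ N ∧ ∀ y ∈ L, ∃ w ∈ W, Co L y w := by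
  classical
  obtain ⟨w, b, hwb⟩ := h
  refine ⟨Finset.univ.image fun i => -w i, Finset.card_image_le.trans (by simp), fun y hy => ?_⟩
  rcases eq_or_ne y c with rfl | hyc
  · exact ⟨_, Finset.mem_image_of_mem _ (Finset.mem_univ (⟨0, hN⟩ : Fin N)), Co.of_interior hc _⟩
  have hQc : IsCompact (Pol L c) := Pol.isCompact hc
  have hQ0 : (0 : Eu k) ∈ interior (Pol L c) := Pol.zero_mem_interior hLc
  have hv : y - c ∈ Pol (Pol L c) 0 := by
    rw [bipolar hL hLc.isClosed (interior_subset hc)]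
    simpa using hy
  obtain ⟨x₀, hx₀, hmax⟩ := hQc.exists_isMaxOn ⟨0, interior_subset hQ0⟩
    (f := fun x => ⟪y - c, x⟫_ℝ) (by fun_prop)
  obtain ⟨i, hi1, hi2⟩ := hwb (y - c) x₀ (sub_ne_zero.2 hyc) hx₀ (fun x hx => hmax hx)
  refine ⟨_, Finset.mem_image_of_mem _ (Finset.mem_univ i), ?_⟩
  have h1 : Co (Pol (Pol L c) 0) (y - c) (-w i) := by
    refine Co_of_sep hQc hQ0 hv fun x hx hx1 => ?_
    rw [sub_zero] at hx1 ⊢
    have h2 : ⟪y - c, x⟫_ℝ = ⟪y - c, x₀⟫_ℝ := by
      refine le_antisymm (hmax hx) ?_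
      rw [hx1]
      have := hv x₀ hx₀
      rwa [sub_zero] at this
    have h3 := hi2 x hx h2
    rw [inner_zero_right] at hi1
    linarith
  obtain ⟨ε, hε, h4⟩ := h1
  refine ⟨ε, hε, ?_⟩
  have h5 : Pol (Pol L c) 0 = (Homeomorph.addLeft c) ⁻¹' L := by
    ext v
    rw [bipolar hL hLc.isClosed (interior_subset hc)]
    rfl
  rw [h5, ← Homeomorph.preimage_interior] at h4
  have h6 : c + (y - c + ε • -w i) ∈ interior L := h4
  rwa [← add_assoc, add_sub_cancel] at h6

open Pool.Agent.W677.Summand in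
/-- the pieces, in the dimensions in which the conjecture is true -/
theorem piece_of_conj {d : ℕ} {A : Set (Eu d)} (hne : A.Nonempty) (hA : Convex ℝ A)
    (hAc : IsCompact A) (hc : dim A ≤ 2 ∨ ConjectureInDimension (dim A)) :
    PieceDirs A (2 ^ dim A) ∧ (PieceDirs A (2 ^ dim A - 1) ∨ ∃ Z : Finset (Eu d),
      Z.card ≤ 2 ^ dim A ∧ A = convexHull ℝ (Z : Set (Eu d))) := by
  classical
  rcases Nat.lt_or_ge 2 (dim A) with h2 | h2
  swap
  · exact low_piece hne hA hAc h2
  have hconj := hc.resolve_left (by omega)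
  obtain ⟨a₀, ha₀⟩ := hne
  obtain ⟨f, hf⟩ := coords (vectorSpan ℝ A) (k := dim A) rfl
  have hLv : Convex ℝ (Lset f A a₀) := Lset_convex hA
  have hLk : IsCompact (Lset f A a₀) := Lset_compact (fun x hx => (hf x).1 hx) ha₀ hAc
  obtain ⟨c, hc⟩ := Lset_int hf ha₀ hA
  obtain ⟨h3, h4⟩ := hconj (Pol (Lset f A a₀) c) (Pol.convex _ _) (Pol.isCompact hc) 0
    (Pol.zero_mem_interior hLk)
  have hpow : 1 < 2 ^ dim A := Nat.one_lt_two_pow (by omega)
  refine ⟨pd_of_dirs ha₀ hf (dirs_of_sep hLv hLk hc (by omega) h3), ?_⟩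
  by_cases h5 : SeparatedBy (Pol (Lset f A a₀) c) 0 (2 ^ dim A - 1)
  · exact Or.inl (pd_of_dirs ha₀ hf (dirs_of_sep hLv hLk hc (by omega) h5))
  · obtain ⟨v, t, hv, ht, h6⟩ := h4 h5
    exact Or.inr (hull_image ha₀ hf (hull_of_cross hLv hLk.isClosed (interior_subset hc) v t hv ht h6))

/-- the assembly -/
theorem assemble {d : ℕ} (hd : 1 ≤ d) {K : Set (Eu d)} (hK : Convex ℝ K) (hKc : IsCompact K)
    {o : Eu d} (ho : o ∈ interior K) {m : ℕ} (A : Fin m → Set (Eu d))
    (hA : ∀ j, Convex ℝ (A j)) (hAc : ∀ j, IsCompact (A j)) (hAP : ∀ j, A j ⊆ Pol K o)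
    (hext : (Pol K o).extremePoints ℝ ⊆ ⋃ j, A j) (e : Fin m → ℕ) (hsum : ∑ j, 2 ^ e j ≤ 2 ^ d)
    (hp : ∀ j, (A j).Nonempty → PieceDirs (A j) (2 ^ e j) ∧
      (PieceDirs (A j) (2 ^ e j - 1) ∨ ∃ Z : Finset (Eu d),
        Z.card ≤ 2 ^ e j ∧ A j = convexHull ℝ (Z : Set (Eu d)))) : BothParts K o := by
  classical
  have hP : Pool.Agent.W677.Summand.Bdy (Pol K o) :=
    ⟨Pol.convex K o, Pol.isCompact ho, ⟨0, Pol.zero_mem_interior hKc⟩⟩
  constructor
  · obtain ⟨D, hD, h1⟩ := dirs_of_pieces hP A hA hAc hAP hext (fun j => 2 ^ e j)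
      (fun j hj => (hp j hj).1)
    exact sep_of_dirs hKc ho ⟨D, hD.trans hsum, h1⟩
  intro hno
  have hno' : ¬ ∃ D : Finset (Eu d), D.card ≤ 2 ^ d - 1 ∧
      ∀ x ∈ Pol K o, ∃ v ∈ D, Co (Pol K o) x v := fun h => hno (sep_of_dirs hKc ho h)
  -- all pieces are convex hulls of few points
  have hZ : ∀ j, ∃ Z : Finset (Eu d), Z.card ≤ 2 ^ e j ∧ A j = convexHull ℝ (Z : Set (Eu d)) := by
    intro j
    rcases (A j).eq_empty_or_nonempty with h0 | h0
    · exact ⟨∅, by simp, by rw [h0, Finset.coe_empty, convexHull_empty]⟩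
    refine ((hp j h0).2).resolve_left fun h1 => hno' ?_
    obtain ⟨D, hD, h2⟩ := dirs_of_pieces hP A hA hAc hAP hext
      (fun i => if i = j then 2 ^ e j - 1 else 2 ^ e i) (fun i hi => by
        by_cases hij : i = j
        · subst hij; simpa using h1
        · simpa [hij] using (hp i hi).1)
    refine ⟨D, hD.trans ?_, h2⟩
    have h3 : ∑ i, (if i = j then 2 ^ e j - 1 else 2 ^ e i) + 1 = ∑ i, 2 ^ e i := by
      rw [← Finset.add_sum_erase _ _ (Finset.mem_univ j),
        ← Finset.add_sum_erase Finset.univ (fun i => 2 ^ e i) (Finset.mem_univ j), if_pos rfl,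
        Finset.sum_congr rfl (fun i hi => if_neg (Finset.ne_of_mem_erase hi))]
      have : 0 < 2 ^ e j := by positivity
      omega
    omega
  choose Z hZ1 hZ2 using hZ
  have h1 : (Pol K o).extremePoints ℝ ⊆ ((Finset.univ.biUnion Z : Finset (Eu d)) : Set (Eu d)) := by
    intro x hx
    obtain ⟨j, hj⟩ := mem_iUnion.1 (hext hx)
    have h2 : x ∈ (A j).extremePoints ℝ :=
      mem_extremePoints_iff_forall_segment.2 ⟨hj, fun y hy z hz hxyz =>
        (mem_extremePoints_iff_forall_segment.1 hx).2 y (hAP j hy) z (hAP j hz) hxyz⟩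
    rw [hZ2 j] at h2
    have h3 := extremePoints_convexHull_subset h2
    exact Finset.mem_coe.2 (Finset.mem_biUnion.2 ⟨j, Finset.mem_univ j, Finset.mem_coe.1 h3⟩)
  obtain ⟨v, t, hv, ht, h2⟩ := cross_of_points hd hKc hK ho (Finset.univ.biUnion Z)
    ((Finset.card_biUnion_le.trans (Finset.sum_le_sum fun j _ => hZ1 j)).trans hsum) h1 hno'
  refine ⟨v, t, hv, ht, ?_⟩
  rw [h2]
  congr 1
  ext x
  simp only [mem_union, mem_range, mem_iUnion, mem_insert_iff, mem_singleton_iff]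
  constructor
  · rintro (⟨i, rfl⟩ | ⟨i, rfl⟩)
    · exact ⟨i, Or.inl rfl⟩
    · exact ⟨i, Or.inr rfl⟩
  · rintro ⟨i, rfl | rfl⟩
    · exact Or.inl ⟨i, rfl⟩
    · exact Or.inr ⟨i, rfl⟩

/-- the piece in a flat -/
theorem dim_flat {d : ℕ} (P : Set (Eu d)) (E : AffineSubspace ℝ (Eu d)) :
    dim (P ∩ (E : Set (Eu d))) ≤ flatDim E := by
  refine Submodule.finrank_mono ?_
  rw [AffineSubspace.direction_eq_vectorSpan]
  exact vectorSpan_mono ℝ inter_subset_right

open Pool.Agent.W677.Summand in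
/-- the bound `β` for all dimensions -/
theorem piece_beta {d : ℕ} {A : Set (Eu d)} (hne : A.Nonempty) (hA : Convex ℝ A)
    (hAc : IsCompact A) : ∃ N : ℕ, (N : ℝ) ≤ beta (dim A) ∧ PieceDirs A N := by
  classical
  rcases Nat.lt_or_ge 2 (dim A) with h2 | h2
  swap
  · refine ⟨2 ^ dim A, ?_, (low_piece hne hA hAc h2).1⟩
    rw [beta, if_pos h2]
    push_cast; rfl
  obtain ⟨a₀, ha₀⟩ := hne
  obtain ⟨f, hf⟩ := coords (vectorSpan ℝ A) (k := dim A) rfl
  have hLv : Convex ℝ (Lset f A a₀) := Lset_convex hA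
  have hLk : IsCompact (Lset f A a₀) := Lset_compact (fun x hx => (hf x).1 hx) ha₀ hAc
  obtain ⟨T, hT1, hT2⟩ := Pool.Agent.Results.MP_eba1ef_gt.AllConvexBodies.result (dim A)
    (by omega) (Lset f A a₀) hLv hLk (Lset_int hf ha₀ hA)
  refine ⟨T.card, ?_, pd_of_dirs ha₀ hf (dirs_of_cover ⟨T, le_rfl, hT1⟩)⟩
  rw [beta, if_neg (by omega)]
  exact hT2

/-- **Main theorem.** -/
theorem result (d : ℕ) (hd : 1 ≤ d) (K : Set (Eu d)) (hK : Convex ℝ K) (hKc : IsCompact K)
    (o : Eu d) (ho : o ∈ interior K) (m : ℕ) :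
    SumBound K o m ∧
    ∀ E : Fin m → AffineSubspace ℝ (Eu d), ExtremePointsIn K o (fun j => (E j : Set (Eu d))) →
      ((∀ j, flatDim (E j) ≤ 2) → ∑ j, 2 ^ flatDim (E j) ≤ 2 ^ d → BothParts K o) ∧
      (∑ j, beta (flatDim (E j)) ≤ 2 ^ d → SeparatedBy K o (2 ^ d)) ∧
      ((∀ k, 3 ≤ k → k < d → ConjectureInDimension k) → (∀ j, flatDim (E j) < d) →
        ∑ j, 2 ^ flatDim (E j) ≤ 2 ^ d → BothParts K o) := by
  classical
  have hP : Pool.Agent.W677.Summand.Bdy (Pol K o) :=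
    ⟨Pol.convex K o, Pol.isCompact ho, ⟨0, Pol.zero_mem_interior hKc⟩⟩
  refine ⟨?_, ?_⟩
  · intro A N hA hext hN
    obtain ⟨D, hD, h1⟩ := dirs_of_pieces hP A (fun j => (hA j).1) (fun j => (hA j).2.1)
      (fun j => (hA j).2.2) hext N (fun j hj => by
        rcases hN j with h | ⟨h, hNj⟩
        · exact pd_of_rel hj h
        · rw [hNj]
          exact pd_of_smooth hj (hA j).1 h)
    exact sep_of_dirs hKc ho ⟨D, hD, h1⟩
  intro E hE
  have hA : ∀ j, Convex ℝ (Pol K o ∩ (E j : Set (Eu d))) := fun j =>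
    (Pol.convex K o).inter (E j).convex
  have hAc : ∀ j, IsCompact (Pol K o ∩ (E j : Set (Eu d))) := fun j =>
    (Pol.isCompact ho).inter_right (E j).closed_of_finiteDimensional
  have hext : (Pol K o).extremePoints ℝ ⊆ ⋃ j, (Pol K o ∩ (E j : Set (Eu d))) := by
    intro x hx
    obtain ⟨j, hj⟩ := mem_iUnion.1 (hE hx)
    exact mem_iUnion.2 ⟨j, hx.1, hj⟩
  have hle : ∀ j, dim (Pol K o ∩ (E j : Set (Eu d))) ≤ flatDim (E j) :=
    fun j => dim_flat _ _
  have hsum : ∑ j, 2 ^ flatDim (E j) ≤ 2 ^ d →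
      ∑ j, 2 ^ dim (Pol K o ∩ (E j : Set (Eu d))) ≤ 2 ^ d := fun h =>
    (Finset.sum_le_sum fun j _ => Nat.pow_le_pow_right (by norm_num) (hle j)).trans h
  refine ⟨?_, ?_, ?_⟩
  · intro h2 hs
    exact assemble hd hK hKc ho _ hA hAc (fun j => inter_subset_left) hext _ (hsum hs)
      (fun j hj => piece_of_conj hj (hA j) (hAc j) (Or.inl ((hle j).trans (h2 j))))
  · intro hs
    have h1 : ∀ j, ∃ N : ℕ, (N : ℝ) ≤ beta (flatDim (E j)) ∧
        ((Pol K o ∩ (E j : Set (Eu d))).Nonempty → PieceDirs (Pol K o ∩ (E j : Set (Eu d))) N) := by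
      intro j
      rcases (Pol K o ∩ (E j : Set (Eu d))).eq_empty_or_nonempty with h0 | h0
      · refine ⟨0, ?_, fun h => ?_⟩
        · have h3 := beta_mono (Nat.zero_le (flatDim (E j)))
          rw [beta, if_pos (by norm_num)] at h3
          push_cast
          linarith
        · rw [h0] at h; exact absurd h Set.not_nonempty_empty
      · obtain ⟨N, hN, h2⟩ := piece_beta h0 (hA j) (hAc j)
        exact ⟨N, hN.trans (beta_mono (hle j)), fun _ => h2⟩
    choose N hN1 hN2 using h1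
    obtain ⟨D, hD, h2⟩ := dirs_of_pieces hP _ hA hAc (fun j => inter_subset_left) hext N hN2
    refine sep_of_dirs hKc ho ⟨D, hD.trans ?_, h2⟩
    have h3 : ((∑ j, N j : ℕ) : ℝ) ≤ 2 ^ d := by
      push_cast
      exact (Finset.sum_le_sum fun j _ => hN1 j).trans hs
    exact_mod_cast h3
  · intro hconj hlt hs
    refine assemble hd hK hKc ho _ hA hAc (fun j => inter_subset_left) hext _ (hsum hs)
      (fun j hj => piece_of_conj hj (hA j) (hAc j) ?_)
    rcases Nat.lt_or_ge 2 (dim (Pol K o ∩ (E j : Set (Eu d)))) with h2 | h2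
    · exact Or.inr (hconj _ h2 ((hle j).trans_lt (hlt j)))
    · exact Or.inl h2

end Pool.Agent.Results.MP_5e7226_co.ExtremePointsInFlats
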