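import Pool.Agent.TH154.SlabPolar

set_option autoImplicit false

/-!
# MP_5e7226_co: bodies whose extreme points lie on `d + 2` lines through the interior point

Let `K` be a convex body in `ℝ^d` and `o` an interior point of `K`, and suppose that all the extreme
points of `K` lie on at most `d + 2` lines through `o`; equivalently `K` is the convex hull of at
most `d + 2` segments which contain `o` in their relative interiors (a cross-body is such a body
with `d` segments in linearly independent directions). Then there are `2 ^ d` hyperplanes, none of
them through `o`, such that every face of `K` is strictly separated from `o` by one of them: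
`s(K, o) ≤ 2 ^ d`.

The proof. In the polar body `K°` of `K` with respect to `o`, which is an intersection of `d + 2`
slabs, choose `d` slabs whose parallelotope `Q` has the smallest volume (after a normalisation of
the width of the slabs this is a basis of maximal determinant; all coefficients of the two other
functionals `P`, `R` are in `[-1, 1]`). One direction is chosen for each of the `2 ^ d` vertices
`z` of `Q`: it points into `Q` at `z` and it decreases or increases `P` and `R` according to the
signs of `P`, `R` at `z` (relative to the middle hyperplanes of the slabs), with a rotationally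
symmetric rule for the ties. For a vertex `y` of `K°` at most two of the coordinates with respect
to `Q` are not extreme, and these can be rounded so that the signs of `P` and `R` are the right ones.
-/

open scoped InnerProductSpace

namespace Pool.Agent.Results.MP_5e7226_co.ExtremePointsOnLines

/-- `K` is a convex body in `ℝ^d` with interior point `o`, and all extreme points of `K` are on the
`d + 2` lines through `o` with the directions `u i`. Then a set `H` of at most `2 ^ d` hyperplanes
`{x | ⟪h.1, x⟫ = h.2}` not passing through `o` is given such that every face of `K`, that is every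
set `{x ∈ K | ⟪w, x⟫ = ⟪w, x₀⟫}` where `w ≠ 0` and `x₀` is a point of `K` at which `⟪w, ·⟫` is
maximal, lies strictly on the side not containing `o` of one of them. -/
theorem result (d : ℕ) (K : Set (EuclideanSpace ℝ (Fin d))) (hKc : IsCompact K)
    (hK : Convex ℝ K) (o : EuclideanSpace ℝ (Fin d)) (ho : o ∈ interior K)
    (u : Fin (d + 2) → EuclideanSpace ℝ (Fin d))
    (hext : ∀ x ∈ K.extremePoints ℝ, ∃ i, ∃ t : ℝ, x = o + t • u i) :
    ∃ H : Finset (EuclideanSpace ℝ (Fin d) × ℝ), H.card ≤ 2 ^ d ∧
      (∀ h ∈ H, h.1 ≠ 0 ∧ ⟪h.1, o⟫_ℝ < h.2) ∧
      ∀ w x₀ : EuclideanSpace ℝ (Fin d), w ≠ 0 → x₀ ∈ K → (∀ y ∈ K, ⟪w, y⟫_ℝ ≤ ⟪w, x₀⟫_ℝ) →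
        ∃ h ∈ H, ∀ x ∈ K, ⟪w, x⟫_ℝ = ⟪w, x₀⟫_ℝ → h.2 < ⟪h.1, x⟫_ℝ :=
  Pool.Agent.TH154.SlabPolar.separation K hKc hK o ho u hext

end Pool.Agent.Results.MP_5e7226_co.ExtremePointsOnLines
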