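import Mathlib
import Pool.Agent.TH591.Lie.Final
import Pool.Agent.TH591.Un.Lower

set_option autoImplicit false

/-!
# MP_5e7226_co: unconditional bodies without large cross-bodies

Let `K` be a convex body in `ℝ^d`, symmetric about all hyperplanes `x_i = o_i` through an interior
point `o`, and let `w i` be the largest value of `|x i - o i|` on `K`; so `K` contains the cross-body
centred at `o` with the vertices `o ± w_i e_i`. Let `θ > 0` and `s = 1 / (29600 √(2θ))`. We prove:

* either there is a set `A` of at least `θ d` coordinates such that the projection (or section)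
  of `K` to the coordinates in `A` is contained in `θ⁻¹` times the cross-body with the vertices
  `± w_i e_i`, `i ∈ A`, which it contains,
* or the faces of `K` can be separated from `o` by at most `1 + 13 d log(4d+1) 2^d e^(-2s)`
  hyperplanes, and by less than `2^d` if `s ≥ 5` and `s ≥ log d`.

So `s(K, o) < 2^d` for an unconditional body `K` unless it has a coordinate section, of dimension
at least `c d / log² d`, whose distance to a cross-body is at most `C log² d`; the conjecture says
that `s(K, o) = 2^d` only for cross-bodies. In particular `s(K, o) < 2^d` in all high dimensions for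
the unconditional bodies with `|A| ≤ (C max_K ∑_{i ∈ A} |x_i - o_i| / w_i)^q` for all `A`, for given
`q` and `C` (for instance the unit balls of the `ℓ_p`, `p > 1`, of Orlicz and Lorentz norms, etc.
with upper estimates).

The proof: it is enough to cover the polar body `P` by translates of its interior. Let `g` be its
norm, and let `x`, `v` be independent random vectors with the density `e^(-g) / Z`. (a) By the
symmetry of `P` the coordinates of `v` are uncorrelated, so
`E (Dg(x)[v])^2 = ∑ E (D_i g(x))^2 E v_i^2`. (b) Here `(D_i g)^2 ≤ g(e_i) |D_i g|`. (c) The function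
`e^(-g)` is unimodal in each coordinate, so `E |D_i g(x)| = 2 r_i(0) / Z`, where `r_i` is the marginal
density (not normalized) of the `i`-th coordinate. (d) `r_i` is even and log-concave, therefore
`r_i(0) E v_i^2 ≤ 200 Z E |v_i|`. (e) By homogeneity the average over `z, z' ∈ P` of
`(Dg(z)[z'])^2` is at most `400 / (d + 2)` times the sum of the averages of `w_i |z_i|` over `P`.
So `P` has small flatness, and the covering theorem for bodies with small flatness
(MP_eba1ef_gt `ThinSlabs`) applies. (f) If there is no section as above, then for each `x` in `P` less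
than `θ d` of the numbers `w_i |x i| ≤ 1` are at least `θ`, hence their sum is at most `2 θ d`.
-/

namespace Pool.Agent.Results.MP_5e7226_co.UnconditionalWithoutCrossBody

open scoped InnerProductSpace
open MeasureTheory

/-- `K` is a convex body with the interior point `o`, and it is symmetric about the hyperplanes
`x_i = o_i`. -/
def IsUnconditionalAbout {d : ℕ} (K : Set (EuclideanSpace ℝ (Fin d)))
    (o : EuclideanSpace ℝ (Fin d)) : Prop :=
  Convex ℝ K ∧ IsCompact K ∧ o ∈ interior K ∧
    ∀ x ∈ K, ∀ y : EuclideanSpace ℝ (Fin d), (∀ i, |y i - o i| = |x i - o i|) → y ∈ K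

/-- `w i` is the largest value of `|x i - o i|` on `K`. -/
def HasHalfWidths {d : ℕ} (K : Set (EuclideanSpace ℝ (Fin d)))
    (o : EuclideanSpace ℝ (Fin d)) (w : Fin d → ℝ) : Prop :=
  ∀ i, IsGreatest {t : ℝ | ∃ x ∈ K, t = |x i - o i|} (w i)

/-- The projection of `K` to the coordinates in `A` is contained in `θ⁻¹` times the cross-body with
the vertices `± w_i e_i` around the image of `o`. -/
def InCrossBody {d : ℕ} (K : Set (EuclideanSpace ℝ (Fin d)))
    (o : EuclideanSpace ℝ (Fin d)) (w : Fin d → ℝ) (θ : ℝ) (A : Finset (Fin d)) : Prop :=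
  ∀ x ∈ K, θ * ∑ i ∈ A, |x i - o i| / w i ≤ 1

/-- `K` and `o` are separated by `H`: every face of `K` (the set of the points of `K` at which a
functional `⟪u, ·⟫`, `u ≠ 0`, is maximal on `K`) is strictly separated from `o` by one of the
hyperplanes `{x | ⟪h.1, x⟫ = h.2}` with `h ∈ H`. -/
def SeparatesFaces {d : ℕ} (K : Set (EuclideanSpace ℝ (Fin d))) (o : EuclideanSpace ℝ (Fin d))
    (H : Finset (EuclideanSpace ℝ (Fin d) × ℝ)) : Prop :=
  (∀ h ∈ H, h.1 ≠ 0) ∧
    ∀ u x₀ : EuclideanSpace ℝ (Fin d), u ≠ 0 → x₀ ∈ K → (∀ y ∈ K, ⟪u, y⟫_ℝ ≤ ⟪u, x₀⟫_ℝ) →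
      ∃ h ∈ H, ⟪h.1, o⟫_ℝ < h.2 ∧ ∀ x ∈ K, ⟪u, x⟫_ℝ = ⟪u, x₀⟫_ℝ → h.2 < ⟪h.1, x⟫_ℝ

/-- **Main theorem.** -/
theorem result :
    -- the dichotomy
    (∀ d : ℕ, 2 ≤ d → ∀ (K : Set (EuclideanSpace ℝ (Fin d))) (o : EuclideanSpace ℝ (Fin d))
      (w : Fin d → ℝ), IsUnconditionalAbout K o → HasHalfWidths K o w → ∀ θ s : ℝ, 0 < θ →
      s = 1 / (29600 * √(2 * θ)) →
      (∃ A : Finset (Fin d), θ * d ≤ A.card ∧ InCrossBody K o w θ A) ∨
      ∃ H : Finset (EuclideanSpace ℝ (Fin d) × ℝ), SeparatesFaces K o H ∧
        (H.card : ℝ) ≤ 1 + 13 * d * Real.log (4 * d + 1) * 2 ^ d * Real.exp (-(2 * s)) ∧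
        (5 ≤ s → Real.log d ≤ s → H.card < 2 ^ d)) ∧
    -- bodies far from cross-bodies, in high dimensions
    (∀ q C : ℝ, 0 < q → 0 < C → ∃ d₀ : ℕ, ∀ d : ℕ, d₀ ≤ d →
      ∀ (K : Set (EuclideanSpace ℝ (Fin d))) (o : EuclideanSpace ℝ (Fin d)) (w : Fin d → ℝ),
        IsUnconditionalAbout K o → HasHalfWidths K o w →
        (∀ A : Finset (Fin d), ∃ x ∈ K, (A.card : ℝ) ≤ (C * ∑ i ∈ A, |x i - o i| / w i) ^ q) →
        ∃ H : Finset (EuclideanSpace ℝ (Fin d) × ℝ), SeparatesFaces K o H ∧ H.card < 2 ^ d) := by
  have main : ∀ d : ℕ, 2 ≤ d → ∀ (K : Set (EuclideanSpace ℝ (Fin d)))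
      (o : EuclideanSpace ℝ (Fin d))
      (w : Fin d → ℝ), IsUnconditionalAbout K o → HasHalfWidths K o w → ∀ θ s : ℝ, 0 < θ →
      s = 1 / (29600 * √(2 * θ)) →
      (∃ A : Finset (Fin d), θ * d ≤ A.card ∧ InCrossBody K o w θ A) ∨
      ∃ H : Finset (EuclideanSpace ℝ (Fin d) × ℝ), SeparatesFaces K o H ∧
        (H.card : ℝ) ≤ 1 + 13 * d * Real.log (4 * d + 1) * 2 ^ d * Real.exp (-(2 * s)) ∧
        (5 ≤ s → Real.log d ≤ s → H.card < 2 ^ d) := by
    rintro d hd K o w ⟨hK, hKc, ho, hKu⟩ hw θ s hθ hs
    by_cases hno : ∃ A : Finset (Fin d), θ * d ≤ A.card ∧ InCrossBody K o w θ A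
    · exact Or.inl hno
    · right
      set P : Set (EuclideanSpace ℝ (Fin d)) := TH591.Lie.polarAt K o with hP
      have hPu : ∀ x ∈ P, ∀ y : EuclideanSpace ℝ (Fin d), (∀ i, |y i| = |x i|) → y ∈ P := by
        intro x hx y hy z hz
        set z' : EuclideanSpace ℝ (Fin d) :=
          WithLp.toLp 2 fun i => o i + (if y i = x i then z i - o i else -(z i - o i)) with hz'
        have hz'i : ∀ i, z' i = o i + (if y i = x i then z i - o i else -(z i - o i)) := fun i => rfl
        have hz'K : z' ∈ K := by
          refine hKu z hz z' fun i => ?_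
          rw [hz'i, add_sub_cancel_left]
          split_ifs
          · rfl
          · rw [abs_neg]
        have h1 := hx z' hz'K
        have h2 : ⟪y, z - o⟫_ℝ = ⟪x, z' - o⟫_ℝ := by
          rw [PiLp.inner_apply, PiLp.inner_apply]
          refine Finset.sum_congr rfl fun i _ => ?_
          rw [PiLp.sub_apply, PiLp.sub_apply, hz'i, add_sub_cancel_left]
          simp only [RCLike.inner_apply, conj_trivial]
          split_ifs with h
          · rw [h]
          · have h3 : y i = - x i := by
              rcases abs_eq_abs.mp (hy i) with h4 | h4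
              · exact absurd h4 h
              · exact h4
            rw [h3]; ring
        rw [h2]
        exact h1
      -- the largest coordinates
      have hwp : ∀ i, 0 < w i := by
        intro i
        obtain ⟨ε, hε, hεK⟩ := Metric.mem_nhds_iff.mp (mem_interior_iff_mem_nhds.mp ho)
        have h1 : o + EuclideanSpace.single i (ε / 2) ∈ K := by
          apply hεK
          rw [Metric.mem_ball, dist_eq_norm, add_sub_cancel_left, EuclideanSpace.norm_single,
            Real.norm_of_nonneg (by positivity)]
          linarith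
        have h2 := (hw i).2 ⟨_, h1, rfl⟩
        rw [PiLp.add_apply, add_sub_cancel_left] at h2
        simp only [EuclideanSpace.single_apply, if_true] at h2
        rw [abs_of_pos (by positivity)] at h2
        linarith
      have hwle : ∀ x ∈ K, ∀ i, |x i - o i| / w i ≤ 1 := by
        intro x hx i
        rw [div_le_one (hwp i)]
        exact (hw i).2 ⟨x, hx, rfl⟩
      -- sign changes
      have hsign : ∀ x ∈ K, (WithLp.toLp 2 fun i => o i + |x i - o i| :
          EuclideanSpace ℝ (Fin d)) ∈ K := by
        intro x hx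
        refine hKu x hx _ fun i => ?_
        show |o i + |x i - o i| - o i| = |x i - o i|
        rw [add_sub_cancel_left, abs_abs]
      have hh : ∀ i, IsGreatest {t : ℝ | (EuclideanSpace.single i t :
          EuclideanSpace ℝ (Fin d)) ∈ P} (1 / w i) := by
        intro i
        constructor
        · intro x hx
          rw [EuclideanSpace.inner_single_left, PiLp.sub_apply]
          simp only [conj_trivial]
          calc 1 / w i * (x i - o i) ≤ 1 / w i * |x i - o i| := by
                have := hwp i
                gcongr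
                exact le_abs_self _
            _ = |x i - o i| / w i := by ring
            _ ≤ 1 := hwle x hx i
        · intro t ht
          obtain ⟨x, hx, hxw⟩ := (hw i).1
          have h1 := ht _ (hsign x hx)
          rw [EuclideanSpace.inner_single_left, PiLp.sub_apply] at h1
          simp only [conj_trivial] at h1
          rw [add_sub_cancel_left, ← hxw] at h1
          rw [le_div_iff₀ (hwp i)]
          exact h1
      have hPK : Convex ℝ P := TH591.Lie.polarAt_convex K o
      have hPc : IsCompact P := TH591.Lie.polarAt_compact K o ho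
      have hPi : (interior P).Nonempty := TH591.Lie.polarAt_interior K hKc o ho
      obtain ⟨T, hT1, hT2, hT3⟩ := TH591.Un.cover_mean d hd P hPK hPc hPi hPu (fun i => 1 / w i) hh
        (2 * θ) s (by positivity) hs (by
          refine TH591.Un.average_le hPK hPc hPi hPu _ fun z hz => ?_
          refine TH591.Un.sum_of_noBox hPK hPc hPi hPu hh θ hθ (fun A hA => ?_) z hz
          by_contra hcon
          apply hno
          refine ⟨A, hA, fun x hx => ?_⟩
          push Not at hcon
          have h1 := hcon (WithLp.toLp 2 fun i => if i ∈ A then θ * (1 / w i) else 0) (by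
            intro i
            show |if i ∈ A then θ * (1 / w i) else 0| ≤ _
            have := hwp i
            split_ifs
            · rw [abs_of_pos (by positivity)]
            · simp)
          have h2 := h1 _ (hsign x hx)
          rw [PiLp.inner_apply] at h2
          refine le_trans (le_of_eq ?_) h2
          rw [Finset.mul_sum, ← Finset.sum_filter_add_sum_filter_not Finset.univ (· ∈ A)]
          have h3 : Finset.univ.filter (· ∈ A) = A := by ext i; simp
          have h4 : ∑ i ∈ Finset.univ.filter (fun i => ¬ i ∈ A),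
              ⟪(WithLp.toLp 2 fun i => if i ∈ A then θ * (1 / w i) else 0 :
                EuclideanSpace ℝ (Fin d)) i,
              ((WithLp.toLp 2 fun i => o i + |x i - o i| : EuclideanSpace ℝ (Fin d)) - o) i⟫_ℝ
              = 0 := by
            refine Finset.sum_eq_zero fun i hi => ?_
            have hi' : ¬ i ∈ A := (Finset.mem_filter.mp hi).2
            simp [hi']
          rw [h4, add_zero, h3]
          refine Finset.sum_congr rfl fun i hi => ?_
          rw [PiLp.sub_apply]
          simp only [RCLike.inner_apply, conj_trivial, if_pos hi, add_sub_cancel_left]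
          ring)
      obtain ⟨H, hH, hsep⟩ := TH591.Lie.sep_of_cover K o ho T hT1
      refine ⟨H, hsep, le_trans (by exact_mod_cast hH) hT2, fun h5 h6 => hH.trans_lt (hT3 h5 h6)⟩
  refine ⟨main, fun q C hq hC => ?_⟩
  obtain ⟨d₀, hd₀⟩ := TH591.Un.exists_theta q C hq hC
  refine ⟨max d₀ 2, fun d hd K o w hK hw hlow => ?_⟩
  obtain ⟨θ, s, hθ, hs, h5, hlog, hbig⟩ := hd₀ d (le_trans (le_max_left _ _) hd)
  rcases main d (le_trans (le_max_right _ _) hd) K o w hK hw θ s hθ hs with ⟨A, hA, hin⟩ | hT
  · exfalso
    obtain ⟨x, hx, hx2⟩ := hlow A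
    have h1 := hin x hx
    set S := ∑ i ∈ A, |x i - o i| / w i with hS
    have hw0 : ∀ i, 0 ≤ w i := by
      intro i
      obtain ⟨y, -, hy⟩ := (hw i).1
      rw [hy]
      exact abs_nonneg _
    have hS0 : 0 ≤ S := Finset.sum_nonneg fun i _ => div_nonneg (abs_nonneg _) (hw0 i)
    have hθq : 0 < θ ^ q := Real.rpow_pos_of_pos hθ q
    have h4 : θ ^ q * (C * S) ^ q ≤ C ^ q := by
      rw [← Real.mul_rpow hθ.le (by positivity)]
      refine Real.rpow_le_rpow (by positivity) ?_ hq.le
      nlinarith
    have h5 : θ ^ (q + 1) * d = θ ^ q * (θ * d) := by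
      rw [Real.rpow_add hθ, Real.rpow_one]; ring
    have h6 : θ ^ q * (θ * d) ≤ θ ^ q * (C * S) ^ q :=
      mul_le_mul_of_nonneg_left (hA.trans hx2) hθq.le
    linarith
  · obtain ⟨H, h1, -, h3⟩ := hT
    exact ⟨H, h1, h3 h5 hlog⟩

end Pool.Agent.Results.MP_5e7226_co.UnconditionalWithoutCrossBody
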